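import Mathlib
import Pool.Agent.P8H50.NK.All3

/-!
MP_2a5ae2_ag, Q1: the conjecture of Green, Griffiths and Lang for covers of products of projective
spaces which are jointly ramified over hyperplanes in arbitrary position.

`IsSpaceCover k K w` (`Pool/Agent/P8H50/NK/Pcl.lean`): the function field `K` contains the homogeneous
coordinates `y j a` (`a ≤ n j`) of a point of a product of projective spaces of dimensions `n j ≥ 1`
(one coordinate of each factor is equal to one), and is algebraic over the field which they generate;
`w = ∑ j, n j`; and it contains functions `z i ≠ 0` with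
`z i ^ m i = ∏ j, ∏ l, (∑ a, ℓ j l a * y j a) ^ e i j l`, with the conditions `PDat.Good`
(`Pool/Agent/P8H50/NK/PDefs.lean`): each of the hyperplanes `ℓ j l` (`l < q j`) occurs in some equation,
`m i` divides `∑ l, e i j l`, at most `t j ≥ n j` of the hyperplanes of the factor `j` have a common
point, `q j > 2 * t j`, and there are `ρ j ≥ 0` with `∑ j, ρ j < 1` and
`b * (2 * t j + 1 - b) * E j ≤ 2 * ρ j * (q j - (2 * t j + 1 - b))` for `b = 1, …, n j`, where
`E j = ∑ i, (∑ l, e i j l) / m i`. This is a birational condition on varieties; they can be smooth or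
singular. For `n j = 1`, `t j = 1` it is `∑ j, E j / (q j - 2) < 1`, the class `IsGridCover` of
`SurfacesOverGrids`.

`GeneralType` (`Pool/Agent/W602/GT/Defs.lean`): by pluricanonical forms which are regular at all prime
divisors. `PseudoBrody v` (`Pool/Agent/Y221/BD/Defs.lean`): some form which does not vanish on the
projective variety with the generic point `v` vanishes on all nonconstant entire curves in it.
`CurveBound` (`Pool/Agent/Y216/Point.lean`): the degree of maps from curves of genus `g`, with image
outside of a proper closed subset, is at most `B * max (2 * g - 2) 0`.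

Authors: helper50; project NK (second main theorem of Cartan and Nochka with Wronskians, weights and
joint multiplicities): helpers 20, 52, 54, 61, 69, 88, 94 (analytic part), 16, 45, 53, 71 (function
fields), 37, 45, 53, 65, 68, 69, 75, 76, 86 (models, general type). It replaces `SystemsOverGrids` of
helper10 and helper50.
-/

set_option autoImplicit false

namespace Pool.Agent.Results.MP_2a5ae2_ag.CoversOfProjectiveSpaces

open Pool.Agent.W602.GT Pool.Agent.P8H50.NK
open Pool.Agent.Y221.BD (PseudoBrody)
open Pool.Agent.Y216 (CurveBound)

/-- (1) Let `X` be a projective variety over `ℂ` with a function field in the class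
`IsSpaceCover ℂ`. Then `X` is pseudo-Brody hyperbolic, and the degrees of the maps from curves of genus
`g` to `X` which do not map into a proper closed subset are bounded by `B * max (2 * g - 2) 0`.

(2) If moreover the dimension of `X` is the dimension of the product of projective spaces, then `X` is
of general type (over all algebraically closed fields of characteristic zero). So the conjecture holds
for these varieties.

(3) The conditions hold for one equation `z ^ m = ∏ j, ∏ l, (∑ a, ℓ j l a * y j a)` if in each factor
there are `q j ≥ 4 * n j` hyperplanes in general position, `m` divides `q j`, and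
`m > ∑ j, n j * (n j + 1)`.

(4) Let `X` be the variety of a system of `r` equations of this kind in homogeneous coordinates:
`w i ^ m i = ∏ j, ∏ l, (∑ a, ℓ i j l a * x j a) ^ e i j l`, such that each equation satisfies the
conditions. Then all nonconstant entire curves in `X` lie in the closed subset `Z = {w = 0}`; if
`r < ∑ j, n j` then every point of `Z` is on a nonconstant entire curve, so `Z` is exactly the
exceptional set; if `∑ j, n j ≤ r` and the hyperplanes of all the equations are in general position in
each factor, there are no nonconstant entire curves in `X`. -/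
theorem result :
    (∀ (K : Type) [Field K] [Algebra ℂ K] (w : ℕ), IsSpaceCover ℂ K w →
      ∀ (M : ℕ) (v : Fin (M + 1) → K), v ≠ 0 → coords ℂ v = ⊤ →
        PseudoBrody v ∧ CurveBound ℂ v) ∧
    (∀ (k K : Type) [Field k] [IsAlgClosed k] [CharZero k] [Field K] [Algebra k K] (w : ℕ),
      IsSpaceCover k K w → Algebra.trdeg k K = w → GeneralType k K w) ∧
    (∀ (k : Type) [Field k] (s : ℕ) (n q : Fin s → ℕ) (m : ℕ)
      (ℓ : ∀ j, Fin (q j) → Fin (n j + 1) → k), (∀ j, 1 ≤ n j) →
      (∀ j (T : Finset (Fin (q j))), T.card = n j + 1 → ∀ v : Fin (n j + 1) → k,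
        (∀ l ∈ T, ∑ a, ℓ j l a * v a = 0) → v = 0) →
      (∀ j, 4 * n j ≤ q j) → (∀ j, m ∣ q j) → ∑ j, n j * (n j + 1) < m →
      (PDat.single q m ℓ).Good) ∧
    ∀ (s : ℕ) (n : Fin s → ℕ) (r : ℕ) (S : Fin r → PDat ℂ n 1), (∀ i, (S i).Good) →
      (∀ x w, SysCurve S x w → ∀ t i, w t i = 0) ∧
      (r < ∑ j, n j → ∀ x, OnSys S x 0 → ∃ X w, SysCurve S X w ∧ X 0 = x ∧ w 0 = 0) ∧
      (∑ j, n j ≤ r → SysGen S → ∀ x w, ¬ SysCurve S x w) := by
  refine ⟨fun K _ _ w h M v hv hgen => ?_, fun k K _ _ _ _ _ w h htr => ?_,
    fun k _ s n q m ℓ hn hℓ hq hm hs => PDat.single_good hn hℓ hq hm hs,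
    fun s n r S hS => ⟨fun x w h t i => sys_zero t_CUR hS h t i,
      fun hr x hx => sys_sharp hS hr hx, fun hr hg x w => sys_brody t_CUR hS hg hr x w⟩⟩
  · obtain ⟨s, n, r, D, y, z, -, -, hD, hy, halg⟩ := h
    exact ⟨t_BRO s n r D K y z hD hy halg M v hv hgen,
      t_CBD s n r D K y z hD hy halg M v hv hgen⟩
  · obtain ⟨s, n, r, D, y, z, hn, rfl, hD, hy, halg⟩ := h
    exact t_GTP k s n r D K y z hD hy hn halg htr

end Pool.Agent.Results.MP_2a5ae2_ag.CoversOfProjectiveSpaces
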