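import Pool.Agent.P8H66.LC.Shp

/-!
MP_2a5ae2_ag, Q1: entire curves of bounded degree in gap functions, uniformly.
-/

set_option autoImplicit false

namespace Pool.Agent.Results.MP_2a5ae2_ag.GapCurvesUniform

open MvPolynomial
open Pool.Agent.P8H66.LC
open Pool.Agent.TH600.LC (HadamardGaps DAlg CoefRing)
open Pool.Agent.W602.GT (IsForm GeneralType)
open Pool.Agent.W603.BPR (EntireCurve)
open Pool.Agent.W603.PV (IsHomog)
open Pool.Agent.TH143.GT (FunField Pluricanonical)

/-- The sums of products of an element of the ring `CoefRing Y` generated by `z` and the functions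
in `Y` and of at most `D` entire functions with Hadamard gaps at the origin. -/
def Deg (Y : Set (ℂ → ℂ)) (D : ℕ) : Set (ℂ → ℂ) :=
  ((GapMod Y ^ D : Submodule (CoefRing Y) (ℂ → ℂ)) : Set (ℂ → ℂ))

/-- `f` is an entire curve in the projective variety with the ideal `p`, with homogeneous
coordinates `F_j (h z)`, up to a common factor, where all `F_j` belong to `Deg Y D`, but not with
such coordinates `F_j` in `CoefRing Y`; here `Y` is a set of entire functions which satisfy
algebraic differential equations and `h` is an entire function. -/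
structure GapCurve {n : ℕ} (p : Ideal (MvPolynomial (Fin (n + 1)) ℂ)) (Y : Set (ℂ → ℂ)) (D : ℕ)
    (h : ℂ → ℂ) (f : ℂ → Fin (n + 1) → ℂ) : Prop where
  coef : ∀ u ∈ Y, Differentiable ℂ u ∧ DAlg u
  hol : Differentiable ℂ h
  curve : EntireCurve p 1 f
  deg : Given h (Deg Y D) f
  not_coef : ¬ Given h (CoefRing Y : Set (ℂ → ℂ)) f

/-- Let `X` be the projective variety with the homogeneous ideal `p`.

(1) Let `f` be an entire curve in `X` of degree at most `D` in gap functions over a ring of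
differentially algebraic functions, which is not given by the functions of this ring
(`GapCurve p Y D h f`). Then a rational curve of degree at most `D` in `X` passes through `f z`, for
all `z` outside of the zero set of an entire function, and if `D = 1` then all points `f z` lie on
lines in `X`.

(2) For all `D` the Zariski closure of the union of all these curves (for all `Y` and `h`) is the
Zariski closure of the union of the rational curves of degree at most `D` in `X`. It does not change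
if we only take the curves with the empty set `Y` and `h z = z`.

(3) Let `X` have a nonzero pluricanonical form, for instance let `X` be of general type. Then the
closed set in (2) is not `X`, for all `D`: there are hypersurfaces `G D = 0` which do not contain `X`
such that `G D = 0` contains all these curves, for all `Y` and `h`. -/
theorem result {n : ℕ} (p : Ideal (MvPolynomial (Fin (n + 1)) ℂ)) (hp : IsHomog p) :
    (∀ (Y : Set (ℂ → ℂ)) (D : ℕ) (h : ℂ → ℂ) (f : ℂ → Fin (n + 1) → ℂ), GapCurve p Y D h f →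
      (∃ u : ℂ → ℂ, Differentiable ℂ u ∧ (∃ z, u z ≠ 0) ∧ ∀ z, u z ≠ 0 →
        ∃ R, RatCurve p R ∧ (∀ j, (R j).natDegree ≤ D) ∧ ∃ c : ℂ, c ≠ 0 ∧ crv R 0 = c • f z) ∧
      (D = 1 → ∀ z, OnLine p (f z))) ∧
    (∀ (D : ℕ) (G : MvPolynomial (Fin (n + 1)) ℂ), IsForm G →
      ((∀ R, RatCurve p R → (∀ j, (R j).natDegree ≤ D) → ∀ t, eval (crv R t) G = 0) ↔
        ∀ Y h f, GapCurve p Y D h f → ∀ z, eval (f z) G = 0) ∧
      ((∀ R, RatCurve p R → (∀ j, (R j).natDegree ≤ D) → ∀ t, eval (crv R t) G = 0) ↔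
        ∀ f, GapCurve p ∅ D (fun z => z) f → ∀ z, eval (f z) G = 0)) ∧
    ∀ (K : Type) [Field K] [Algebra ℂ K] (w : ℕ) (y : Fin (n + 1) → K), FunField p 1 K w y →
      ((∃ N, 0 < N ∧ ∃ ω : (Fin w → Derivation ℂ K K) → K, Pluricanonical w N ω ∧ ω ≠ 0) →
        ∀ D : ℕ, ∃ G : MvPolynomial (Fin (n + 1)) ℂ, IsForm G ∧ G ∉ p ∧
          (∀ R, RatCurve p R → (∀ j, (R j).natDegree ≤ D) → ∀ t, eval (crv R t) G = 0) ∧
          ∀ Y h f, GapCurve p Y D h f → ∀ z, eval (f z) G = 0) ∧
      (GeneralType ℂ K w →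
        ∃ N, 0 < N ∧ ∃ ω : (Fin w → Derivation ℂ K K) → K, Pluricanonical w N ω ∧ ω ≠ 0) := by
  have key : ∀ (Y : Set (ℂ → ℂ)) (D : ℕ) (h : ℂ → ℂ) (f : ℂ → Fin (n + 1) → ℂ),
      GapCurve p Y D h f →
      ∃ u : ℂ → ℂ, Differentiable ℂ u ∧ (∃ z, u z ≠ 0) ∧ ∀ z, u z ≠ 0 →
        ∃ R, RatCurve p R ∧ (∀ j, (R j).natDegree ≤ D) ∧ ∃ c : ℂ, c ≠ 0 ∧ crv R 0 = c • f z := by
    intro Y D h f hf
    rcases gap_through hp hf.coef hf.curve hf.hol hf.deg with h1 | h1
    · exact absurd h1 hf.not_coef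
    · exact h1
  have forms : ∀ (D : ℕ) (G : MvPolynomial (Fin (n + 1)) ℂ), IsForm G →
      (∀ R, RatCurve p R → (∀ j, (R j).natDegree ≤ D) → ∀ t, eval (crv R t) G = 0) →
        ∀ Y h f, GapCurve p Y D h f → ∀ z, eval (f z) G = 0 := by
    intro D G hG hR Y h f hf
    obtain ⟨u, hu, hu0, h1⟩ := key Y D h f hf
    obtain ⟨hd, -, -, -⟩ := Pool.Agent.TH143.GT.ent_data hf.curve
    refine forms_through hd hu hu0 hG fun z hz => ?_
    obtain ⟨R, h1, h2, h3⟩ := h1 z hz
    exact ⟨R, hR R h1 h2, h3⟩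
  have back : ∀ (D : ℕ) (G : MvPolynomial (Fin (n + 1)) ℂ),
      (∀ f, GapCurve p ∅ D (fun z => z) f → ∀ z, eval (f z) G = 0) →
      ∀ R, RatCurve p R → (∀ j, (R j).natDegree ≤ D) → ∀ t, eval (crv R t) G = 0 := by
    intro D G hG R hR hRD t
    obtain ⟨h1, h2, h3⟩ := sharp hR hRD
    have h4 := hG _ ⟨fun u hu => absurd hu (Set.notMem_empty u), differentiable_id, h1, h2, h3⟩
    exact zero_of_comp (u := fun t => eval (crv R t) G)
      (diff_eval (f := crv R) (fun j => (R j).differentiable) G) gf_diff gf_nonconst h4 t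
  refine ⟨fun Y D h f hf => ⟨key Y D h f hf, ?_⟩, fun D G hG => ⟨⟨forms D G hG, fun h1 =>
    back D G fun f hf => h1 ∅ _ f hf⟩, ⟨fun h1 f hf => forms D G hG h1 ∅ _ f hf, back D G⟩⟩,
    fun K _ _ w y hy => ⟨fun hω D => ?_, ?_⟩⟩
  · rintro rfl
    obtain ⟨u, hu, hu0, h1⟩ := key Y 1 h f hf
    refine lines_closed hf.curve hu hu0 fun z hz => ?_
    obtain ⟨R, h1, h2, c, hc, h3⟩ := h1 z hz
    exact line_of_ratCurve hp h1 h2 hc h3
  · obtain ⟨G, hG1, hG2, hG3⟩ := not_dense hy hω D
    exact ⟨G, hG1, hG2, hG3, forms D G hG1 hG3⟩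
  · rintro ⟨-, N, hN, ω, hpl, hreg, δ, hδ, -⟩
    exact ⟨N, hN, ω 0, ⟨hpl 0, fun P hP => hreg P hP 0⟩, fun h => hδ (by rw [h]; rfl)⟩

end Pool.Agent.Results.MP_2a5ae2_ag.GapCurvesUniform
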