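import Pool.Agent.P8H26.Nod.GenF
import Pool.Agent.P8H28.Cov.Any

/-!
The conjecture of Green, Griffiths and Lang, also in the stronger form for the Kobayashi
pseudodistance, for all surfaces of general type with a finite étale covering (perhaps the surface
itself) which has a nonconstant map to an elliptic curve, in particular for all surfaces of general
type of irregularity 1. The fibres are arbitrary; the input from algebraic geometry is the theorem
on stable reduction, see below.
-/

set_option autoImplicit false

open FF LinearAlgebra.Projectivization Pool.Agent.W602.GT Pool.Agent.N154.TB Pool.Agent.P8H26
open Pool.Agent.N154.TT (HolToTorus)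
open Pool.Agent.N154.GG (projDist kobayashi)
open Pool.Agent.P8H28.Cov (DiscsLift)

/-- Let `X = {F = 0}` be an irreducible projective surface with generic point `y`, which may be
singular, let `α : X → E = ℂ / Λ` be a holomorphic map to an elliptic curve and `B` a finite set of
points of `E`. Assume that

* outside the fibres over `B` the fibres of `α` are nodal curves (see `NodalOff`): `X` is smooth and
`α` is a submersion, except at finitely many points, where `X` is the surface `x y = t ^ m` with `α
= b + t`;

* `X` has pluricanonical forms, twisted by `O (-1)`, without common zeros outside the fibres over
`B`, whose pull-backs by holomorphic maps from open subsets of `ℂ²` to `X` are locally bounded (see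
`CanFormsOff`; if the fibres over `B` are removed then these are the sections of `ν K - H`);

* for every point `b` of `B` the family `α : X → E` has a semistable model over a neighbourhood of
`b`: after the base change `t = τ ^ e` it is birational to a family of nodal curves `Y` over the
disc of the `τ`, with pluricanonical forms as in `CanForms`, and over a neighbourhood of `b` the
surface `X` is the quotient of `Y` by the cyclic group of the covering (see `LocalModel`). If `B` is
empty then this condition is empty: `X` is a semistable family, with `K_X` ample for instance.

Let `X' = {F' = 0}` be an irreducible projective surface, with any singularities, and `K'` its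
function field; let an embedding `σ` of `K'` in the function field `K` of `X` be given. Assume that
`σ` is surjective, so that `X'` is birational to `X` (for example `X' = X`), or that the holomorphic
discs in `X'` which do not start in a proper closed subset `{S = 0}` lift to `X` (see `DiscsLift`):
this is true if a finite étale covering of `X'` is birational to `X`, since discs are simply
connected. Then there is a form `Q`, which is not zero on `X'`, such that

(1) all nonconstant holomorphic maps `f : ℂ → X'` have their image in the proper closed subset `{Q =
0}` of `X'`, so `X'` is pseudo-Brody hyperbolic;

(2) `X'` is Kobayashi hyperbolic modulo `{Q = 0}`: for every point `p` of `X'` with `Q (p) ≠ 0`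
there are a number `c > 0` and a neighbourhood of `p` such that the Kobayashi pseudodistance of `X'`
between a point `p'` of this neighbourhood and any point `q` is at least `c` times the distance of
`p'` and `q` in projective space.

The theorem applies to all surfaces `X₁` of general type with a nonconstant map to an elliptic
curve, and to all surfaces with a finite étale covering `X₁` of this kind: these are the surfaces
`X'` of the theorem, and the following surface `X` satisfies the hypotheses. Let `X₁` be smooth and
`X₁ → E` the fibration with connected fibres which is defined by the map (if its base has genus at
least 2 then all entire curves lie in fibres, whose general one has genus at least 2, so the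
conjecture is true). The fibres have genus at least 2, and we may assume that `X₁` is minimal. By
the theorem of Deligne and Mumford there is a Galois covering `E' → E` with a group `G` such that
the fibration has a stable model `Y → E'`. Since the stable model is unique, `G` acts on `Y`. Let `X
= Y / G`, with the map `α : X → E`. Let `H` be an ample line bundle on `X` such that `H` and its
pull-back `H'` to `Y` are very ample, and embed `X` by `H`, `Y` by `H'`. Then `G` acts linearly on
the sections of `H'`, and `P : Y → X` is given by a linear map, since the sections of `H` are
sections of `H'`. Let `W → X` be a resolution of the singularities, and `M` the pull-back to `W` of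
the canonical bundle of the minimal model of `W`. The `η q` are the sections of `ν M - H ⊆ ν K_W -
H` on `W`, for a large `ν` (and zero at the singular points of `X`). They are pluricanonical forms
of the surface `W`; so the pull-back by a holomorphic map from an open subset `U` of `ℂ²` to `X` is
a holomorphic form on a blowing up of `U`, so on `U`. Their common zeros lie in the curves `C` with
`M C = 0`, which are contracted in the canonical model; these are rational curves and so lie in
finitely many fibres. `B` is the set of points of `E` below these fibres, the branch points and the
points with a singular fibre in `X₁`. Let `b` be a point of `B` and `b'` a point of `E'` above `b`.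
The stabiliser of `b'` in `G` is cyclic; let `g` be a generator and `e` the order, let `τ` be the
coordinate at `b'` with `b + τ ^ e` in `E`, and let `Y` be the part of the surface `Y` over a disc
at `b'`. Over a disc at `b`, `X` is the quotient of this surface by the group generated by `g`, and
outside the central fibre `Y → X` is an unramified covering, so holomorphic curves lift. The fibres
are stable curves, so the singularities of `Y` are nodes `x y = τ ^ m` of the fibres, and the
canonical bundle of `Y` is ample on the fibres; so the sections of `ν K_Y - H'`, `ν` large, have no
common zeros over the disc.

So the conjecture of Green, Griffiths and Lang is true for all surfaces of general type of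
irregularity 1. Together with the known results for irregularity at least 2 this proves it for all
surfaces of general type with positive irregularity, and for those with positive virtual first Betti
number, that is, with a finite étale covering of positive irregularity (an example of irregularity
0: the fibrations over `ℙ¹` whose multiple fibres have multiplicities `(2, 2, 2, 2)`, `(3, 3, 3)`,
`(2, 4, 4)` or `(2, 3, 6)`).

About the proof. The main theorem `Pool.Agent.P8H26.kob_geo_f` reduces the assertion to the claim
that there is no nonconstant holomorphic map from the complex plane to a fibre, with bounded
derivative, which is the limit of maps from larger and larger discs to `X` which do not meet the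
fibre. The discs can be lifted to `Y`, and by the rescaling method of Brody they give a nonconstant
map to the central fibre of `Y`, with bounded derivative, which is also such a limit. By the theorem
of Hurwitz it does not go through the nodes, and then it is constant by the theorem of Liouville for
the values of the forms at the vector fields over the unit vector field along the curve (`S_CROSS`,
`S_VERT`, `S_EXC`). A second point is that the forms are bounded along infinitesimal deformations of
discs through the singular points of `X` (`S_BDD2`): sections of `X` over a disc at `b` lift to `Y`,
where they go through a fixed point of `g` in the central fibre, and the sections near a given one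
lie in the image of a holomorphic map from an open subset of `ℂ²` to `X`, by the theorem of Cartan
on the linearisation of `g`. The fibres are algebraic by an elementary argument (`S_ALG`). The
assertion is a birational invariant (`Pool.Agent.P8H26.Nod.HypMod.bir`) and descends along coverings
(`Pool.Agent.P8H28.Cov.hypMod_cov`). -/
theorem Pool.Agent.Results.MP_2a5ae2_ag.SurfacesOverElliptic.result {n n' : ℕ} {ι ι' : Type}
    (F : ι → MvPolynomial (Fin (n + 1)) ℂ) (hF : ∀ i, IsForm (F i)) {K : Type}
    [Field K] [Algebra ℂ K] (y : Fin (n + 1) → K) (hy : SubVar F K 2 y)
    (hirr : Cone F ⊆ VarPts ℂ y) (Λ : Submodule ℤ (Fin 1 → ℂ)) [DiscreteTopology Λ]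
    [IsZLattice ℝ Λ] (α : (Fin (n + 1) → ℂ) → (Fin 1 → ℂ) ⧸ Λ) (hα : HolToTorus (Cone F) Λ α)
    (B : Set ((Fin 1 → ℂ) ⧸ Λ)) (hB : B.Finite)
    (N : Set (ℙ ℂ (Fin (n + 1) → ℂ))) (hN : NodalOff (Cone F) B α N) {κ : Type} (ν : κ → ℕ)
    (η : κ → (Fin (n + 1) → ℂ) → (Fin (n + 1) → ℂ) → (Fin (n + 1) → ℂ) → ℂ)
    (hη : CanFormsOff (Cone F) B α ν η) (hM : ∀ b ∈ B, HasLocalModel (Cone F) α b)
    (F' : ι' → MvPolynomial (Fin (n' + 1)) ℂ) (hF' : ∀ i, IsForm (F' i)) {K' : Type} [Field K']
    [Algebra ℂ K'] (y' : Fin (n' + 1) → K') (hy' : SubVar F' K' 2 y')
    (hirr' : Cone F' ⊆ VarPts ℂ y') (σ : K' →ₐ[ℂ] K)
    (hσ : Function.Surjective σ ∨ ∃ S : MvPolynomial (Fin (n' + 1)) ℂ, IsForm S ∧ val y' S ≠ 0 ∧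
      DiscsLift (Cone F) (Cone F') y (fun j => σ (y' j)) S) :
    ∃ Q : MvPolynomial (Fin (n' + 1)) ℂ, IsForm Q ∧ val y' Q ≠ 0 ∧
      (∀ f, CurveIn (Cone F') f → ¬ IsConst f → ∀ z, val (f z).rep Q = 0) ∧
      ∀ p : ℙ ℂ (Fin (n' + 1) → ℂ), p.rep ∈ Cone F' → val p.rep Q ≠ 0 →
        ∃ c > 0, ∃ ε > 0, ∀ p' q : ℙ ℂ (Fin (n' + 1) → ℂ), projDist p p' < ε →
          ENNReal.ofReal (c * projDist p' q) ≤ kobayashi (Cone F') p' q :=
  Pool.Agent.P8H28.Cov.hypMod_any hF hF' hy hy' hirr hirr' σ hσ
    (Pool.Agent.P8H26.Nod.general_nodal hF le_rfl hy hirr hα hB hN hη hM)
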