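import Mathlib
import Pool.Agent.P8H50.SS.Main
import Pool.Agent.P8H50.SS.Lin

/-!
MP_2a5ae2_ag, Q1: the Green-Griffiths-Lang conjecture, with the exact exceptional sets, for all
projective surfaces which have a generically finite rational map to a system of jointly branched cyclic
covers of a product of projective lines, and for higher-dimensional varieties.

`IsGridCover ℂ K` (`Pool/Agent/P8H50/SS/Cls.lean`): the function field `K` contains functions
`x 0, …, x (n - 1)`, over which it is algebraic, and functions `z i ≠ 0` with
`z i ^ m i = ∏ j, P i j (x j)`, where `m i` divides the degrees of the polynomials `P i j`; if `q j ≥ 3`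
is the number of the roots of the product of the `P i j` over all `i` then the sum over `j` of
`(∑ i, deg (P i j) / m i) / (q j - 2)` is less than one. This is a birational condition, there is no
hypothesis on the singularities. The number `n` is arbitrary: geometrically, the varieties dominate
cyclic covers of arbitrary varieties `V` which are branched along members of `n` arbitrary pencils
`x j` on `V` (parts (4) and (5) of the theorem), and need not be related to products of curves.

`HypMod x R` (`Pool/Agent/P8H50/SS/HDefs.lean`): `Z = {R = 0}` is a proper closed subset of the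
projective variety `X` with the generic point `x`; it contains the nonconstant entire curves, the
nonconstant meromorphic images of the spaces `ℂ ^ g` and of the multiplicative group, and the
holomorphic images of the punctured disc with an essential singularity; the closed subvarieties of
positive dimension which are not in `Z` are of general type; for the maps from curves of genus `g` to
`X` whose image is not in `Z` the degree is at most `A * max (2 * g - 2) 0`, and those from a pointed
curve with a given value outside `Z` are finite in number.

`Grids x` (`Pool/Agent/P8H50/SS/Cla.lean`): the function fields of all closed subvarieties of dimension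
at least two of `X` satisfy `IsGridCover ℂ`.

`SpecialSets x` (`Pool/Agent/Q103/SF/Defs2.lean`, by helper103): the closed curves of geometric genus at
most one in `X` are finite in number; the Zariski closure of each nonconstant entire curve, of each
nonconstant meromorphic image of `ℂ ^ g`, and of each image of the punctured disc with an essential
singularity, is one of these curves; each of them is the Zariski closure of an entire curve and the
image of an elliptic curve; every closed subvariety of positive dimension is of general type or one of
these curves; for maps from curves of genus `g` the degree is at most `A * (2 * g - 2)`, or the image is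
one of these curves.

The methods and files of helper103 (`Q103/SF`) and of the authors cited there are used for the analytic
part (punctured discs, special sets of surfaces).
-/

set_option autoImplicit false

namespace Pool.Agent.Results.MP_2a5ae2_ag.SurfacesOverGrids

open Pool.Agent.W602.GT Pool.Agent.P8H50.SS
open Pool.Agent.TH466.QG (SubOf)
open Pool.Agent.Y221.BD (PseudoBrody)
open Pool.Agent.Q103.SF (SpecialSets)

/-- Let `K` be a field in the class `IsGridCover ℂ`, of transcendence degree `d ≥ 1` over `ℂ`.

(1) `K` is of general type.

(2) Every projective variety `X` with the function field `K` (smooth or not) is hyperbolic modulo a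
proper closed subset.

(3) If `d ≤ 2`, or if the function fields of all closed subvarieties of `X` of dimension at least two
are in the class, then the curves of genus at most one in `X` are finite in number, the Zariski closure
of every entire curve is one of them, and conversely, and the other assertions of `SpecialSets` hold. A
closed subvariety of `X` of positive dimension is of general type if and only if it is pseudo-Brody
hyperbolic.

(4) Examples of the class `IsGridCover`: cyclic covers which are branched along members of `n ≥ 1`
pencils `A j : B j`. `K` is in the class if it contains `z ≠ 0` with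
`z ^ m = ∏ j, ∏ l, (a j l * A j + b j l * B j) ^ e j l`, `A j` and `B j` in `K`, and is algebraic over
the field generated by the `A j / B j`, where for each `j` the forms `a j l * X + b j l * Y`, `l < q j`,
are pairwise independent, `e j l ≥ 1`, `m` divides `∑ l, e j l`, and `q j > n * (∑ l, e j l) / m + 2`.

(5) In particular (`s`, `t` are affine coordinates of the plane, and `A j = s - α j`, `B j = t - β j`)
the cyclic covers of the plane branched along at least three lines through each of `n ≥ 2` points
`(α j, β j)`, under the same numerical condition: `z ^ m` is the product of the powers of the linear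
functions of these lines. For instance all `e j l` are `1`, `m ≥ n + 3` divides each `q j > 0`. -/
theorem result :
    (∀ (K : Type) [Field K] [Algebra ℂ K] (d : ℕ), IsGridCover ℂ K → 1 ≤ d →
      Algebra.trdeg ℂ K = d → GeneralType ℂ K d ∧
      ∀ (M : ℕ) (x : Fin (M + 1) → K), x ≠ 0 → coords ℂ x = ⊤ →
        (∃ R, HypMod x R) ∧
        (d ≤ 2 ∨ Grids x → SpecialSets x ∧
          ∀ (E : Type) [Field E] [Algebra ℂ E] (w : ℕ) (z : Fin (M + 1) → E), SubOf ℂ x z →
            1 ≤ w → Algebra.trdeg ℂ E = w → (GeneralType ℂ E w ↔ PseudoBrody z))) ∧
    (∀ (K : Type) [Field K] [Algebra ℂ K] (n m : ℕ) (q : Fin n → ℕ) (a b : ∀ j, Fin (q j) → ℂ)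
      (e : ∀ j, Fin (q j) → ℕ) (A B : Fin n → K) (z : K), 1 ≤ n → 1 ≤ m →
      (∀ j l l', l ≠ l' → a j l * b j l' ≠ a j l' * b j l) → (∀ j l, 1 ≤ e j l) →
      (∀ j, m ∣ ∑ l, e j l ∧ n * ((∑ l, e j l) / m) + 2 < q j) → z ≠ 0 →
      z ^ m = ∏ j, ∏ l, (algebraMap ℂ K (a j l) * A j + algebraMap ℂ K (b j l) * B j) ^ e j l →
      Algebra.IsAlgebraic (IntermediateField.adjoin ℂ (Set.range fun j => A j / B j)) K →
      IsGridCover ℂ K) ∧
    (∀ (K : Type) [Field K] [Algebra ℂ K] (s t : K) (n m : ℕ) (α β : Fin n → ℂ) (q : Fin n → ℕ)
      (a b : ∀ j, Fin (q j) → ℂ) (e : ∀ j, Fin (q j) → ℕ) (z : K),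
      AlgebraicIndependent ℂ ![s, t] →
      Algebra.IsAlgebraic (IntermediateField.adjoin ℂ {s, t}) K → 2 ≤ n → 1 ≤ m →
      (∀ i j, i ≠ j → α i ≠ α j ∨ β i ≠ β j) →
      (∀ j l l', l ≠ l' → a j l * b j l' ≠ a j l' * b j l) → (∀ j l, 1 ≤ e j l) →
      (∀ j, m ∣ ∑ l, e j l ∧ n * ((∑ l, e j l) / m) + 2 < q j) → z ≠ 0 →
      z ^ m = ∏ j, ∏ l, (algebraMap ℂ K (a j l) * (s - algebraMap ℂ K (α j)) +
        algebraMap ℂ K (b j l) * (t - algebraMap ℂ K (β j))) ^ e j l →
      IsGridCover ℂ K) := by
  refine ⟨fun K _ _ d hK hd htr => ⟨hK.generalType hd htr, fun M x hx hgen =>
    ⟨hK.hypMod hx hgen, fun h => ?_⟩⟩, fun K _ _ n m q a b e A B z hn hm hab he hq hz0 hz halg =>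
      of_pencils hn hm hab he hq hz0 hz halg,
    fun K _ _ s t n m α β q a b e z hst halg hn hm hp hab he hq hz0 hz =>
      of_lines hst halg hn hm hp hab he hq hz0 hz⟩
  have hG : Grids x := by
    rcases h with h | h
    · exact hK.grids h htr hx hgen
    · exact h
  exact ⟨hG.special, fun E _ _ w z hz hw ht => hG.ggl hz hw ht⟩

end Pool.Agent.Results.MP_2a5ae2_ag.SurfacesOverGrids
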